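import Pool.Agent.H89.FLT.S

/-!
# MP_e1ba20: row SEP, one integer matrix which separates as much as all small ones
-/

set_option autoImplicit false

open Matrix Polynomial

namespace Pool.FLT

namespace SEP63

theorem avoid {ι : Type} [Fintype ι] (D : ℕ) (F : ι → ℝ[X]) (h0 : ∀ q, F q ≠ 0)
    (hD : ∀ q, (F q).natDegree ≤ D) :
    ∃ τ : ℕ, τ ≤ Fintype.card ι * D ∧ ∀ q, (F q).eval (τ : ℝ) ≠ 0 := by
  classical
  by_contra hcon
  push Not at hcon
  have hprod : (∏ q, F q) ≠ 0 := Finset.prod_ne_zero_iff.2 fun q _ => h0 q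
  apply hprod
  refine Polynomial.eq_zero_of_natDegree_lt_card_of_eval_eq_zero (∏ q, F q)
    (ι := Fin (Fintype.card ι * D + 1)) (f := fun k => ((k : ℕ) : ℝ)) ?_ ?_ ?_
  · intro a b hab
    have h1 : ((a : ℕ) : ℝ) = ((b : ℕ) : ℝ) := hab
    exact Fin.ext (by exact_mod_cast h1)
  · intro k
    obtain ⟨q, hq⟩ := hcon (k : ℕ) (by have := k.2; omega)
    rw [Polynomial.eval_prod]
    exact Finset.prod_eq_zero (Finset.mem_univ q) hq
  · rw [Fintype.card_fin]
    have h1 : (∏ q, F q).natDegree ≤ ∑ q, (F q).natDegree :=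
      Polynomial.natDegree_prod_le _ _
    have h2 : ∑ q, (F q).natDegree ≤ ∑ _q : ι, D := Finset.sum_le_sum fun q _ => hD q
    rw [Finset.sum_const, Finset.card_univ, smul_eq_mul] at h2
    omega

theorem dg_zero {n : ℕ} (g : GR n) : Dg g 0 0 := by
  unfold Dg cst
  simp

theorem dg_add {n : ℕ} {g : GR n} {η η' : Matrix (Fin n) (Fin n) ℤ} {d d' : Fin n → ℝ}
    (h : Dg g η d) (h' : Dg g η' d') : Dg g (η + η') (d + d') := by
  unfold Dg at *
  have e1 : cst (η + η') = cst η + cst η' := by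
    ext i j; simp [cst]
  have e2 : Matrix.diagonal (d + d') = Matrix.diagonal d + Matrix.diagonal d' := by
    rw [Matrix.diagonal_add]; rfl
  rw [e1, e2, Matrix.add_mul, Matrix.mul_add, h, h']

theorem dg_smul {n : ℕ} {g : GR n} {η : Matrix (Fin n) (Fin n) ℤ} {d : Fin n → ℝ} (m : ℕ)
    (h : Dg g η d) : Dg g ((m : ℤ) • η) ((m : ℝ) • d) := by
  unfold Dg at *
  have e1 : cst ((m : ℤ) • η) = (m : ℝ) • cst η := by
    ext i j
    have h1 : ((m : ℤ) • η) i j = (m : ℤ) * η i j := by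
      rw [Matrix.smul_apply, smul_eq_mul]
    have h2 : cst ((m : ℤ) • η) i j = ((((m : ℤ) • η) i j : ℤ) : ℝ) := rfl
    have h3 : ((m : ℝ) • cst η) i j = (m : ℝ) * ((η i j : ℤ) : ℝ) := rfl
    rw [h2, h1, h3]
    push_cast
    rfl
  have e2 : Matrix.diagonal ((m : ℝ) • d) = (m : ℝ) • Matrix.diagonal d := by
    rw [Matrix.diagonal_smul]
  rw [e1, e2, Matrix.smul_mul, Matrix.mul_smul, h]

theorem dg_sum {n : ℕ} {g : GR n} {ι : Type} (s : Finset ι)
    (m : ι → ℕ) (η : ι → Matrix (Fin n) (Fin n) ℤ) (d : ι → Fin n → ℝ)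
    (h : ∀ p, Dg g (η p) (d p)) :
    Dg g (∑ p ∈ s, (m p : ℤ) • η p) (∑ p ∈ s, (m p : ℝ) • d p) := by
  classical
  induction s using Finset.induction_on with
  | empty => simpa using dg_zero g
  | insert a s ha ih =>
    rw [Finset.sum_insert ha, Finset.sum_insert ha]
    exact dg_add (dg_smul (m a) (h a)) ih

end SEP63

theorem sep : SEPStmt := by
  classical
  intro n
  refine ⟨(n * n : ℕ) * ((n * n * (n * n) + 1 : ℕ) : ℝ) ^ (n * n) + 1, by positivity, ?_⟩
  intro g ρ hρ
  -- data for the pairs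
  have hdata : ∀ q : Fin n × Fin n, ∃ (η : Matrix (Fin n) (Fin n) ℤ) (d : Fin n → ℝ), Dg g η d ∧
      (∀ k, |d k| ≤ Real.exp ρ) ∧
      ((∃ x ∈ Sm g ρ, co x q.1 ≠ co x q.2) → d q.1 ≠ d q.2) := by
    intro q
    by_cases hsep : ∃ x ∈ Sm g ρ, co x q.1 ≠ co x q.2
    · obtain ⟨x, hx, hne⟩ := hsep
      obtain ⟨⟨η, d, hdg, hd⟩, hn⟩ := hx
      refine ⟨η, d, hdg, ?_, ?_⟩
      · intro k
        rw [hd k]
        apply Real.exp_le_exp.2
        have h1 : ‖(x : EuclideanSpace ℝ (Fin n)) k‖ ≤ ‖(x : EuclideanSpace ℝ (Fin n))‖ :=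
          PiLp.norm_apply_le _ k
        have h2 : ‖(x : EuclideanSpace ℝ (Fin n))‖ ≤ ρ := hn
        exact (le_abs_self _).trans (h1.trans h2)
      · intro _ heq
        apply hne
        have h1 : |d q.1| = |d q.2| := by rw [heq]
        rw [hd, hd] at h1
        exact Real.exp_injective h1
    · refine ⟨0, 0, SEP63.dg_zero g, ?_, ?_⟩
      · intro k
        simp only [Pi.zero_apply, abs_zero]
        positivity
      · intro h
        exact absurd h hsep
  choose η d hdg hbd hsep using hdata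
  -- the polynomials
  let e : Fin n × Fin n ≃ Fin (n * n) := finProdFinEquiv
  let F : Fin n × Fin n → ℝ[X] := fun q =>
    if ∃ x ∈ Sm g ρ, co x q.1 ≠ co x q.2 then
      ∑ p : Fin n × Fin n, Polynomial.C (d p q.1 - d p q.2) * X ^ ((e p : Fin (n * n)) : ℕ) else 1
  have hF0 : ∀ q, F q ≠ 0 := by
    intro q
    by_cases hs : ∃ x ∈ Sm g ρ, co x q.1 ≠ co x q.2
    · simp only [F, hs, if_true]
      intro h0
      have h1 := congrArg (fun P : ℝ[X] => P.coeff ((e q : Fin (n * n)) : ℕ)) h0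
      simp only [Polynomial.finsetSum_coeff, Polynomial.coeff_C_mul, Polynomial.coeff_X_pow,
        Polynomial.coeff_zero] at h1
      rw [Finset.sum_eq_single q] at h1
      · simp only [if_true, mul_one] at h1
        exact hsep q hs (sub_eq_zero.1 h1)
      · intro p _ hp
        rw [if_neg, mul_zero]
        intro h2
        apply hp
        have h3 : e q = e p := Fin.ext h2
        exact (e.injective h3).symm
      · intro h2
        exact absurd (Finset.mem_univ q) h2
    · simp only [F, hs, if_false]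
      exact one_ne_zero
  have hFD : ∀ q, (F q).natDegree ≤ n * n := by
    intro q
    by_cases hs : ∃ x ∈ Sm g ρ, co x q.1 ≠ co x q.2
    · simp only [F, hs, if_true]
      refine Polynomial.natDegree_sum_le_of_forall_le _ _ fun p _ => ?_
      refine (Polynomial.natDegree_C_mul_X_pow_le _ _).trans ?_
      exact (e p).2.le
    · simp only [F, hs, if_false]
      simp
  obtain ⟨τ, hτ, hev⟩ := SEP63.avoid (n * n) F hF0 hFD
  rw [Fintype.card_prod, Fintype.card_fin] at hτ
  refine ⟨∑ p, ((τ ^ ((e p : Fin (n * n)) : ℕ) : ℕ) : ℤ) • η p,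
    ∑ p, ((τ ^ ((e p : Fin (n * n)) : ℕ) : ℕ) : ℝ) • d p,
    SEP63.dg_sum Finset.univ _ η d hdg, ?_, ?_⟩
  · intro k
    rw [Finset.sum_apply]
    calc |∑ p, (((τ ^ ((e p : Fin (n * n)) : ℕ) : ℕ) : ℝ) • d p) k|
        ≤ ∑ p, |(((τ ^ ((e p : Fin (n * n)) : ℕ) : ℕ) : ℝ) • d p) k| :=
          Finset.abs_sum_le_sum_abs _ _
      _ ≤ ∑ _p : Fin n × Fin n, ((n * n * (n * n) + 1 : ℕ) : ℝ) ^ (n * n) * Real.exp ρ := by
          apply Finset.sum_le_sum
          intro p _
          rw [Pi.smul_apply, smul_eq_mul, abs_mul, Nat.abs_cast]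
          apply mul_le_mul _ (hbd p k) (abs_nonneg _) (by positivity)
          have h1 : τ ^ ((e p : Fin (n * n)) : ℕ) ≤ (n * n * (n * n) + 1) ^ (n * n) := by
            calc τ ^ ((e p : Fin (n * n)) : ℕ)
                ≤ (n * n * (n * n) + 1) ^ ((e p : Fin (n * n)) : ℕ) :=
                  Nat.pow_le_pow_left (by omega) _
              _ ≤ (n * n * (n * n) + 1) ^ (n * n) :=
                  Nat.pow_le_pow_right (by omega) (e p).2.le
          exact_mod_cast h1
      _ = ((n * n : ℕ) : ℝ) * ((n * n * (n * n) + 1 : ℕ) : ℝ) ^ (n * n) * Real.exp ρ := by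
          rw [Finset.sum_const, Finset.card_univ, Fintype.card_prod, Fintype.card_fin,
            nsmul_eq_mul]
          ring
      _ ≤ (((n * n : ℕ) : ℝ) * ((n * n * (n * n) + 1 : ℕ) : ℝ) ^ (n * n) + 1) * Real.exp ρ := by
          apply mul_le_mul_of_nonneg_right _ (Real.exp_pos ρ).le
          linarith
  · intro i j hij x hx
    by_contra hne
    have hs : ∃ x ∈ Sm g ρ, co x (i, j).1 ≠ co x (i, j).2 := ⟨x, hx, hne⟩
    apply hev (i, j)
    simp only [F, hs, if_true]
    rw [Polynomial.eval_finsetSum]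
    rw [Finset.sum_apply, Finset.sum_apply] at hij
    have h1 : ∑ p : Fin n × Fin n, (Polynomial.C (d p i - d p j) *
        X ^ ((e p : Fin (n * n)) : ℕ) : ℝ[X]).eval (τ : ℝ) =
        ∑ p, (((τ ^ ((e p : Fin (n * n)) : ℕ) : ℕ) : ℝ) • d p) i -
          ∑ p, (((τ ^ ((e p : Fin (n * n)) : ℕ) : ℕ) : ℝ) • d p) j := by
      rw [← Finset.sum_sub_distrib]
      apply Finset.sum_congr rfl
      intro p _
      simp only [Polynomial.eval_mul, Polynomial.eval_C, Polynomial.eval_pow, Polynomial.eval_X,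
        Pi.smul_apply, smul_eq_mul, Nat.cast_pow]
      ring
    rw [h1, hij, sub_self]

end Pool.FLT
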